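import Pool.Agent.K1H95.EO.Stm

/-!
# Project EO, piece TREE: a tree of height `ω` with `≤ κ` nodes and more than `κ` branches
-/

set_option autoImplicit false

open Cardinal

namespace Pool.Agent.K1H10.EO

open Pool.Agent.K1H95.EO

/-- an increasing sequence of cardinals -/
noncomputable def mu (κ₀ : Cardinal.{0}) : ℕ → Cardinal.{0}
  | 0 => max κ₀ ℵ₀
  | n + 1 => Order.succ (mu κ₀ n)

theorem t_TREE : S_TREE := by
  intro κ₀
  obtain ⟨κ, hκ⟩ : ∃ κ : Cardinal.{0}, κ = Cardinal.sum (mu κ₀) := ⟨_, rfl⟩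
  have hle : ∀ n, mu κ₀ n ≤ κ := fun n => by rw [hκ]; exact Cardinal.le_sum _ n
  have h0 : κ₀ ≤ κ := (le_max_left _ _).trans (hle 0)
  have h1 : ℵ₀ ≤ κ := (le_max_right _ _).trans (hle 0)
  have hE : #κ.out = κ := Cardinal.mk_out κ
  have hprod : κ < #(ℕ → κ.out) := by
    have h2 : Cardinal.sum (mu κ₀) < Cardinal.prod (fun n => mu κ₀ (n + 1)) :=
      Cardinal.sum_lt_prod _ _ fun n => Order.lt_succ (mu κ₀ n)
    have h3 : Cardinal.prod (fun n => mu κ₀ (n + 1)) ≤ Cardinal.prod (fun _ : ℕ => κ) :=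
      Cardinal.prod_le_prod _ _ fun n => hle (n + 1)
    have h4 : Cardinal.prod (fun _ : ℕ => κ) = #(ℕ → κ.out) := by
      rw [Cardinal.prod_const, Cardinal.mk_pi, Cardinal.prod_const, hE]
    rw [← h4]
    exact lt_of_lt_of_le (hκ ▸ h2) h3
  have hI : #((Order.succ κ).ord.ToType) = Order.succ κ := Cardinal.mk_ord_toType _
  have h5 : #((Order.succ κ).ord.ToType) ≤ #(ℕ → κ.out) := by
    rw [hI]
    exact Order.succ_le_of_lt hprod
  obtain ⟨c⟩ : Nonempty ((Order.succ κ).ord.ToType ↪ (ℕ → κ.out)) := h5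
  refine ⟨κ, κ.out, (Order.succ κ).ord.ToType, inferInstance, c, h0, h1, hE.le, c.injective, ?_, ?_⟩
  · rw [hI]
    exact Order.lt_succ κ
  · intro i
    have h6 : #(Set.Iio i) ≤ κ := Order.lt_succ_iff.1 (Cardinal.mk_Iio_toType_ord_lt i)
    rw [← Set.Iio_insert]
    exact (Cardinal.mk_insert_le).trans (by
      calc #(Set.Iio i) + 1 ≤ κ + κ := add_le_add h6 (Cardinal.one_lt_aleph0.le.trans h1)
        _ = κ := Cardinal.add_eq_self h1)

end Pool.Agent.K1H10.EO
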